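import Pool.Agent.W42.RG.Defs

set_option autoImplicit false

open Finset Filter Topology MeasureTheory

namespace Pool.Agent.W32.LX

open Pool.Agent.W42.RG

theorem nsmul_fix {V M : Type} [NormedAddCommGroup V] [NormedSpace ℝ V] [MetricSpace M]
    {br : V →L[ℝ] V →L[ℝ] V} {Φ : V → M → M} (h : Iso br Φ) {p : M} {U : V} (hU : Φ U p = p) :
    ∀ k : ℕ, Φ ((k : ℝ) • U) p = p := by
  intro k
  induction k with
  | zero => rw [Nat.cast_zero, zero_smul, h.zero]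
  | succ k ih =>
    rw [Nat.cast_succ, h.line, one_smul, hU, ih]

theorem add_fix {V M : Type} [NormedAddCommGroup V] [NormedSpace ℝ V] [MetricSpace M]
    {br : V →L[ℝ] V →L[ℝ] V} {Φ : V → M → M} (h : Iso br Φ) {p : M} {Y Z : V}
    (hY : Y ∈ st Φ p) (hZ : Z ∈ st Φ p) : Φ (Y + Z) p = p := by
  obtain ⟨C, ρ, hρ, hloc⟩ := h.loc
  -- choose the elements for large n
  obtain ⟨N, hN⟩ : ∃ N : ℕ, ∀ n : ℕ, N ≤ n → ‖(((n : ℝ) + 1)⁻¹) • Y‖ ≤ ρ ∧ ‖(((n : ℝ) + 1)⁻¹) • Z‖ ≤ ρ := by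
    obtain ⟨N, hN⟩ := exists_nat_ge ((‖Y‖ + ‖Z‖) / ρ)
    refine ⟨N, fun n hn => ?_⟩
    have hn' : (N : ℝ) ≤ n := by exact_mod_cast hn
    have hpos : (0 : ℝ) < (n : ℝ) + 1 := by positivity
    have hb : ‖Y‖ + ‖Z‖ ≤ ρ * ((n : ℝ) + 1) := by
      rw [div_le_iff₀ hρ] at hN
      nlinarith
    refine ⟨?_, ?_⟩
    · rw [norm_smul, norm_inv, Real.norm_of_nonneg hpos.le, inv_mul_le_iff₀ hpos]
      nlinarith [norm_nonneg Z]
    · rw [norm_smul, norm_inv, Real.norm_of_nonneg hpos.le, inv_mul_le_iff₀ hpos]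
      nlinarith [norm_nonneg Y]
  have hex : ∀ n : ℕ, ∃ W : V, N ≤ n → ‖W - (Y + Z)‖ ≤ C * ‖br Y Z‖ * ((n : ℝ) + 1)⁻¹ ∧ Φ W p = p := by
    intro n
    by_cases hn : N ≤ n
    · obtain ⟨U, hU1, hU2⟩ := hloc _ _ (hN n hn).1 (hN n hn).2
      have hpos : (0 : ℝ) < (n : ℝ) + 1 := by positivity
      refine ⟨((n : ℝ) + 1) • U, fun _ => ⟨?_, ?_⟩⟩
      · have e1 : ((n : ℝ) + 1) • U - (Y + Z) =
            ((n : ℝ) + 1) • (U - ((n : ℝ) + 1)⁻¹ • Y - ((n : ℝ) + 1)⁻¹ • Z) := by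
          rw [smul_sub, smul_sub, smul_smul, smul_smul, mul_inv_cancel₀ hpos.ne', one_smul, one_smul]
          abel
        rw [e1, norm_smul, Real.norm_of_nonneg hpos.le]
        have e2 : ‖br (((n : ℝ) + 1)⁻¹ • Y) (((n : ℝ) + 1)⁻¹ • Z)‖ =
            ((n : ℝ) + 1)⁻¹ * (((n : ℝ) + 1)⁻¹ * ‖br Y Z‖) := by
          rw [map_smul, map_smul, smul_apply, norm_smul, norm_smul, norm_inv,
            Real.norm_of_nonneg hpos.le]
        rw [e2] at hU1
        calc ((n : ℝ) + 1) * ‖U - ((n : ℝ) + 1)⁻¹ • Y - ((n : ℝ) + 1)⁻¹ • Z‖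
            ≤ ((n : ℝ) + 1) * (C * (((n : ℝ) + 1)⁻¹ * (((n : ℝ) + 1)⁻¹ * ‖br Y Z‖))) :=
              mul_le_mul_of_nonneg_left hU1 hpos.le
          _ = C * ‖br Y Z‖ * ((n : ℝ) + 1)⁻¹ := by field_simp
      · have hfix : Φ U p = p := by
          rw [← hU2 p, hZ, hY]
        have := nsmul_fix h hfix (n + 1)
        push_cast at this
        exact this
    · exact ⟨0, fun hh => absurd hh hn⟩
  choose W hW using hex
  have hlim : Tendsto W atTop (𝓝 (Y + Z)) := by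
    rw [tendsto_iff_norm_sub_tendsto_zero]
    refine squeeze_zero' (Eventually.of_forall fun n => norm_nonneg _)
      ((eventually_ge_atTop N).mono fun n hn => (hW n hn).1) ?_
    have h1 : Tendsto (fun n : ℕ => ((n : ℝ) + 1)⁻¹) atTop (𝓝 0) :=
      tendsto_inv_atTop_zero.comp (tendsto_atTop_add_const_right _ _ tendsto_natCast_atTop_atTop)
    have h2 := h1.const_mul (C * ‖br Y Z‖)
    rwa [mul_zero] at h2
  have h1 : Tendsto (fun n => Φ (W n) p) atTop (𝓝 (Φ (Y + Z) p)) :=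
    ((h.cont p).tendsto (Y + Z)).comp hlim
  have h2 : Tendsto (fun n => Φ (W n) p) atTop (𝓝 p) :=
    tendsto_const_nhds.congr' ((eventually_ge_atTop N).mono fun n hn => ((hW n hn).2).symm)
  exact tendsto_nhds_unique h1 h2

theorem smul_st {V M : Type} [NormedAddCommGroup V] [NormedSpace ℝ V]
    {Φ : V → M → M} {p : M} {Y : V} (c : ℝ) (hY : Y ∈ st Φ p) : c • Y ∈ st Φ p := by
  intro t
  rw [smul_smul]
  exact hY _

theorem t_SUB : S_SUB := by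
  intro V M _ _ _ _ br Φ h p
  refine ⟨{ carrier := st Φ p, add_mem' := ?_, zero_mem' := ?_, smul_mem' := ?_ }, rfl⟩
  · intro Y Z hY hZ t
    rw [smul_add]
    exact add_fix h (smul_st t hY) (smul_st t hZ)
  · intro t
    rw [smul_zero, h.zero]
  · intro c Y hY
    exact smul_st c hY

end Pool.Agent.W32.LX
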